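import Pool.Agent.U463.NS.Main

/-!
# MP_663568_nt: nilrotations in short intervals and all multiplicative functions near random ones

The signs `e_i(p)`, `i ∈ ι` (a countable set), are random, and the vectors `(e_i(p))_i` are
independent over the primes `p`. They may have any law at each prime, and they may be deterministic
at most primes: the assumption is that for all finite nonempty `B ⊂ ι` and all `K` there is `D` such
that the sum of `(1 - |E ∏_{i ∈ B} e_i(p)|) / p` over the primes `p ≤ x < p ^ D` is at least `K` for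
all large `x`. Let `g_i` be any multiplicative functions with values `1`, `-1` at the positive
integers, and let `f_i` be `g_i` with the sign changes `e_i(p)` at the primes. For example, `g` is the
Liouville function, and the signs are changed at random at the primes of a set `Q` only, where the sum
of `1 / q` over the `q ∈ Q`, `q ≤ x < q ^ D`, tends to infinity with `D`, uniformly for large `x`.

Then, almost surely, for ALL multiplicative functions `F` with values `1`, `-1` which agree with a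
product of finitely many (at least one) `f_i` and a Dirichlet character at primes of relative
logarithmic density one, for all sets `S` of a countable family fixed in advance (for example, for
the set of the squarefree integers), all nilmanifolds `U_m(ℝ)/Γ_q`, all continuous `Φ` on them and all
degrees `D`, the function `r = F` on `S`, `r = 0` outside of `S`, satisfies the estimate of the
problem: the natural averages over `n ≤ N` of the suprema over all polynomial sequences `A` of degree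
at most `D` in `U_m(ℝ)` of `|∑_{h ≤ H} Φ(A(n + h)) r(n + h)|` are at most `ε H` for all `N ≥ 1` and
`H ≥ H₀`, and the logarithmic averages are at most `ε H` for all `N ≥ H ≥ H₀`; in particular for all
rotations. (If `F` is the Liouville function and `S` the set of the squarefree integers, then `r` is the
Moebius function.)

(By theorems of Malcev and Tietze the sequences `f(g^n x)` of the problem, for all nilmanifolds, are of
the form considered here; this is not part of the formal statement.)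

Proof. Almost surely the signs `F(n + h)`, `n + h ∈ S`, `1 ≤ h ≤ k`, are independent fair coins
relative to the pattern of `S` in the window, for all such `F` (from the hand-in `StableBernoulli` of
MP_4a7640_nt, library folder `U463.RB`). There are at most `exp (δ k)` sequences of length `k`, up to
`δ`, of the form `Φ(A(h))` (helper585, library folder `U585.SI`); so by large deviations the
proportion of the windows of length `k` with a large correlation is exponentially small in `k`. The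
windows of length `H` are divided into blocks of length `k`.
-/

set_option autoImplicit false

namespace Pool.Agent.Results.MP_663568_nt.NearRandomNilmanifolds

open Finset MeasureTheory ProbabilityTheory Filter

/-- multiplicative functions with values `1` and `-1` at the positive integers -/
def MulSign (f : ℕ → ℝ) : Prop :=
  f 1 = 1 ∧ (∀ m n : ℕ, Nat.Coprime m n → f (m * n) = f m * f n) ∧
    ∀ n : ℕ, 1 ≤ n → f n = 1 ∨ f n = -1

/-- `g` with the sign changes `s p` at the primes: `n = ∏ p ^ k` goes to `g n * ∏ (s p) ^ k` -/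
noncomputable def change (g s : ℕ → ℝ) (n : ℕ) : ℝ := g n * n.factorization.prod (fun p k => s p ^ k)

open Classical in
/-- `F` agrees with `f` and a Dirichlet character at primes of relative logarithmic density one -/
def NearTo (f F : ℕ → ℝ) : Prop :=
  ∃ (q : ℕ) (χ : DirichletCharacter ℂ q), 1 ≤ q ∧
    Tendsto (fun X : ℕ => (∑ p ∈ (Icc 1 X).filter (fun p => p.Prime ∧
      (F p : ℂ) ≠ (f p : ℂ) * χ (p : ZMod q)), Real.log p / p) / Real.log X) atTop (nhds 0)

/-- the sum over the primes `p ≤ x < p ^ D` of `(1 - |E ∏_{i ∈ B} e i p|) / p` -/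
noncomputable def window {Ω ι : Type} [MeasurableSpace Ω] (P : Measure Ω) (e : ι → ℕ → Ω → ℝ)
    (B : Finset ι) (D x : ℕ) : ℝ :=
  ∑ p ∈ (Icc 1 x).filter (fun p => p.Prime ∧ x < p ^ D), (1 - |∫ ω, ∏ i ∈ B, e i p ω ∂P|) / p

open Classical in
/-- `F` on the set `S`, and `0` outside of it -/
noncomputable def restrict (S : Set ℕ) (F : ℕ → ℝ) (n : ℕ) : ℝ := if n ∈ S then F n else 0

/-- the group `U_m(ℝ)` of the upper unitriangular real matrices of size `m` -/
def U (m : ℕ) : Set (Matrix (Fin m) (Fin m) ℝ) :=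
  {A | (∀ i, A i i = 1) ∧ ∀ i j, j < i → A i j = 0}

/-- the lattice `Γ_q` of the integer matrices in `U_m(ℝ)` which are congruent to one modulo `q` -/
def lattice (m q : ℕ) : Set (Matrix (Fin m) (Fin m) ℝ) :=
  {A | A ∈ U m ∧ ∀ i j, i < j → ∃ z : ℤ, A i j = q * z}

/-- `Φ` is a continuous function on the nilmanifold `U_m(ℝ)/Γ_q` -/
def OnNil (m q : ℕ) (Φ : Matrix (Fin m) (Fin m) ℝ → ℂ) : Prop :=
  ContinuousOn Φ (U m) ∧ ∀ A ∈ U m, ∀ γ ∈ lattice m q, Φ (A * γ) = Φ A

/-- the sequences in `U_m(ℝ)` whose entries are real polynomials of degree at most `D` -/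
def PolySeq (m D : ℕ) : Set (ℕ → Matrix (Fin m) (Fin m) ℝ) :=
  {A | (∀ n, A n ∈ U m) ∧ ∀ i j, ∃ Q : Polynomial ℝ, Q.natDegree ≤ D ∧
    ∀ n : ℕ, A n i j = Q.eval (n : ℝ)}

/-- `∑_{h = 1}^{H} Φ(A(n + h)) r(n + h)` -/
noncomputable def corr {m : ℕ} (r : ℕ → ℝ) (Φ : Matrix (Fin m) (Fin m) ℝ → ℂ)
    (A : ℕ → Matrix (Fin m) (Fin m) ℝ) (n H : ℕ) : ℂ :=
  ∑ h ∈ Icc 1 H, Φ (A (n + h)) * ((r (n + h) : ℝ) : ℂ)

/-- the supremum over all polynomial sequences of degree at most `D` -/
noncomputable def supPoly {m : ℕ} (D : ℕ) (r : ℕ → ℝ) (Φ : Matrix (Fin m) (Fin m) ℝ → ℂ)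
    (n H : ℕ) : ℝ := ⨆ A : PolySeq m D, ‖corr r Φ A.1 n H‖

/-- the supremum over all rotations `g` and points `x` of `|∑_{h = 1}^{H} Φ(g^{h+n} x) r(n + h)|` -/
noncomputable def supRot {m : ℕ} (r : ℕ → ℝ) (Φ : Matrix (Fin m) (Fin m) ℝ → ℂ) (n H : ℕ) : ℝ :=
  ⨆ z : U m × U m, ‖∑ h ∈ Icc 1 H, Φ (z.1.1 ^ (h + n) * z.2.1) * ((r (n + h) : ℝ) : ℂ)‖

/-- the estimate of the problem for the function `r`, for all nilmanifolds `U_m(ℝ)/Γ_q`, in natural
and in logarithmic averages -/
def NilUniform (r : ℕ → ℝ) : Prop :=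
  ∀ (m q : ℕ), 1 ≤ q → ∀ Φ : Matrix (Fin m) (Fin m) ℝ → ℂ, OnNil m q Φ → ∀ ε : ℝ, 0 < ε →
    (∀ D : ℕ, ∃ H₀ : ℕ, ∀ N H : ℕ, H₀ ≤ H → 1 ≤ N →
      ∑ n ∈ Icc 1 N, supPoly D r Φ n H ≤ ε * H * N ∧
      (H ≤ N → ∑ n ∈ Icc 1 N, (1 / (n : ℝ)) * supPoly D r Φ n H ≤ ε * H * Real.log N)) ∧
    ∃ H₀ : ℕ, ∀ N H : ℕ, H₀ ≤ H → 1 ≤ N →
      ∑ n ∈ Icc 1 N, supRot r Φ n H ≤ ε * H * N ∧
      (H ≤ N → ∑ n ∈ Icc 1 N, (1 / (n : ℝ)) * supRot r Φ n H ≤ ε * H * Real.log N)

/-- normal sequences satisfy the estimate -/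
theorem nil_of_normal {S : Set ℕ} {F : ℕ → ℝ} (hF : ∀ n : ℕ, 1 ≤ n → F n = 1 ∨ F n = -1)
    (hN : Pool.Agent.U463.NS.Normal S (fun n => if n = 0 then 1 else F n)) :
    NilUniform (restrict S F) := by
  intro m q hq Φ hΦ ε hε
  have hF0 : ∀ n, (fun n => if n = 0 then (1 : ℝ) else F n) n = 1 ∨
      (fun n => if n = 0 then (1 : ℝ) else F n) n = -1 := by
    intro n
    beta_reduce
    split_ifs with h
    · exact Or.inl rfl
    · exact hF n (by omega)
  obtain ⟨F', hF'def⟩ : ∃ F' : ℕ → ℝ, F' = fun n => if n = 0 then (1 : ℝ) else F n := ⟨_, rfl⟩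
  rw [← hF'def] at hN hF0
  have hr := Pool.Agent.U463.NS.on_abs (S := S) hF0
  have hon : ∀ u, 1 ≤ u → restrict S F u = Pool.Agent.U463.NS.on S F' u := by
    intro u hu
    unfold restrict Pool.Agent.U463.NS.on
    rw [hF'def]
    beta_reduce
    rw [if_neg (show ¬ u = 0 by omega)]
  have hΦ' : Pool.Agent.U585.SI.NilFun m q Φ :=
    ⟨hΦ.1, fun A γ hA hγ => hΦ.2 A hA γ hγ⟩
  -- the sequences
  have hshift : ∀ (D a : ℕ) (A : ℕ → Matrix (Fin m) (Fin m) ℝ), A ∈ PolySeq m D →
      Pool.Agent.U585.SI.PolySeq m D (fun k => A (k + a)) := by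
    intro D a A hA
    induction a with
    | zero => exact ⟨hA.1, hA.2⟩
    | succ a ih =>
      have := ih.shift
      convert this using 2
      ring_nf
  have hcorr : ∀ (D : ℕ) (A : ℕ → Matrix (Fin m) (Fin m) ℝ) (hA : A ∈ PolySeq m D) (n H : ℕ),
      corr (restrict S F) Φ A n H = Pool.Agent.U463.NS.wsum (Pool.Agent.U463.NS.on S F')
        (fun (z : {A : ℕ → Matrix (Fin m) (Fin m) ℝ // Pool.Agent.U585.SI.PolySeq m D A}) i =>
          Φ (z.1 i)) ⟨fun k => A (k + (n + 1)), hshift D (n + 1) A hA⟩ n H := by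
    intro D A hA n H
    unfold corr Pool.Agent.U463.NS.wsum
    rw [Pool.Agent.U585.SI.reindex
      (fun _ u => Φ (A u) * ((restrict S F u : ℝ) : ℂ)) n H]
    refine Finset.sum_congr rfl fun u hu => ?_
    rw [Finset.mem_Ioc] at hu
    have e1 : u - n - 1 + (n + 1) = u := by omega
    simp only [e1]
    rw [hon u (by omega)]
  have hmain := fun (D : ℕ) (e : ℝ) (he : 0 < e) =>
    Pool.Agent.U463.NS.good_det hF0 hN (Pool.Agent.U585.SI.good_nil m q D hq)
    (fun (z : {A : ℕ → Matrix (Fin m) (Fin m) ℝ // Pool.Agent.U585.SI.PolySeq m D A}) i =>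
      Φ (z.1 i)) ⟨Φ, hΦ', fun _ _ => rfl⟩ e he
  obtain ⟨M, hM0, hM⟩ := hΦ'.bdd hq
  have hbdd : ∀ D n H : ℕ, BddAbove (Set.range fun z : {A : ℕ → Matrix (Fin m) (Fin m) ℝ //
      Pool.Agent.U585.SI.PolySeq m D A} => ‖Pool.Agent.U463.NS.wsum
        (Pool.Agent.U463.NS.on S F') (fun z i => Φ (z.1 i)) z n H‖) := by
    intro D n H
    refine ⟨M * H, ?_⟩
    rintro _ ⟨z, rfl⟩
    unfold Pool.Agent.U463.NS.wsum
    refine (norm_sum_le _ _).trans ?_
    calc ∑ u ∈ Finset.Ioc n (n + H), ‖Φ (z.1 (u - n - 1)) *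
          ((Pool.Agent.U463.NS.on S F' u : ℝ) : ℂ)‖ ≤ ∑ _u ∈ Finset.Ioc n (n + H), M := by
          refine Finset.sum_le_sum fun u _ => ?_
          rw [norm_mul, Complex.norm_real, Real.norm_eq_abs]
          have h2 := hr u
          have h3 := hM _ (z.2.1 (u - n - 1))
          have h4 := norm_nonneg (Φ (z.1 (u - n - 1)))
          nlinarith [abs_nonneg (Pool.Agent.U463.NS.on S F' u)]
      _ = _ := by
          rw [Finset.sum_const, nsmul_eq_mul, Nat.card_Ioc, show n + H - n = H by omega]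
          ring
  have hle : ∀ (D n H : ℕ) (A : ℕ → Matrix (Fin m) (Fin m) ℝ) (_ : A ∈ PolySeq m D),
      ‖corr (restrict S F) Φ A n H‖ ≤ ⨆ z : {A : ℕ → Matrix (Fin m) (Fin m) ℝ //
        Pool.Agent.U585.SI.PolySeq m D A}, ‖Pool.Agent.U463.NS.wsum
          (Pool.Agent.U463.NS.on S F') (fun z i => Φ (z.1 i)) z n H‖ := by
    intro D n H A hA
    rw [hcorr D A hA]
    exact le_ciSup (hbdd D n H) _
  have hsup : ∀ D n H : ℕ, supPoly D (restrict S F) Φ n H ≤
      ⨆ z : {A : ℕ → Matrix (Fin m) (Fin m) ℝ // Pool.Agent.U585.SI.PolySeq m D A},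
        ‖Pool.Agent.U463.NS.wsum (Pool.Agent.U463.NS.on S F') (fun z i => Φ (z.1 i)) z n H‖ := by
    intro D n H
    exact Real.iSup_le (fun A => hle D n H A.1 A.2) (Real.iSup_nonneg fun _ => norm_nonneg _)
  have hrot : ∀ n H : ℕ, supRot (restrict S F) Φ n H ≤
      ⨆ z : {A : ℕ → Matrix (Fin m) (Fin m) ℝ // Pool.Agent.U585.SI.PolySeq m m A},
        ‖Pool.Agent.U463.NS.wsum (Pool.Agent.U463.NS.on S F') (fun z i => Φ (z.1 i)) z n H‖ := by
    intro n H
    refine Real.iSup_le (fun z => ?_) (Real.iSup_nonneg fun _ => norm_nonneg _)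
    have hA : (fun k : ℕ => z.1.1 ^ k * z.2.1) ∈ PolySeq m m := by
      have := Pool.Agent.U585.SI.rotation_poly (m := m) (g := z.1.1) (y := z.2.1) z.1.2 z.2.2
      exact ⟨this.1, this.2⟩
    have := hle m n H _ hA
    refine le_trans (le_of_eq ?_) this
    unfold corr
    congr 1
    refine Finset.sum_congr rfl fun h _ => ?_
    rw [add_comm h n]
  refine ⟨fun D => ?_, ?_⟩
  · obtain ⟨H₀, hH₀⟩ := hmain D ε hε
    refine ⟨H₀, fun N H hH hN => ?_⟩
    obtain ⟨h2, h3⟩ := hH₀ N H hH hN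
    refine ⟨(Finset.sum_le_sum fun n _ => hsup D n H).trans h2, fun hHN => ?_⟩
    refine (Finset.sum_le_sum fun n _ => ?_).trans (h3 hHN)
    exact mul_le_mul_of_nonneg_left (hsup D n H) (by positivity)
  · obtain ⟨H₀, hH₀⟩ := hmain m ε hε
    refine ⟨H₀, fun N H hH hN => ?_⟩
    obtain ⟨h2, h3⟩ := hH₀ N H hH hN
    refine ⟨(Finset.sum_le_sum fun n _ => hrot n H).trans h2, fun hHN => ?_⟩
    refine (Finset.sum_le_sum fun n _ => ?_).trans (h3 hHN)
    exact mul_le_mul_of_nonneg_left (hrot n H) (by positivity)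

/-- **The estimate of the problem for all functions near random functions at once.** -/
theorem result {Ω ι : Type} [MeasurableSpace Ω] [Countable ι] (P : Measure Ω)
    [IsProbabilityMeasure P] (e : ι → ℕ → Ω → ℝ) (hm : ∀ i p, Measurable (e i p))
    (he : ∀ i p ω, e i p ω = 1 ∨ e i p ω = -1)
    (hind : iIndepFun (fun (p : ℕ) (ω : Ω) (i : ι) => e i p ω) P)
    (hW : ∀ B : Finset ι, B.Nonempty → ∀ K : ℝ, ∃ D : ℕ, ∀ᶠ x : ℕ in atTop,
      K ≤ window P e B D x)
    (g : ι → ℕ → ℝ) (hg : ∀ i, MulSign (g i)) (S : ℕ → Set ℕ) :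
    ∀ᵐ ω ∂P, ∀ A : Finset ι, A.Nonempty → ∀ F : ℕ → ℝ, MulSign F →
      NearTo (fun n => ∏ i ∈ A, change (g i) (fun p => e i p ω) n) F →
      ∀ s : ℕ, NilUniform (restrict (S s) F) := by
  have h1 := Pool.Agent.U463.NS.normal_near (P := P) hm he hind (by
      intro B hB K
      obtain ⟨D, hD⟩ := hW B hB K
      refine ⟨D, hD.mono fun x hx => ?_⟩
      unfold window at hx
      exact hx) (g := g) (fun i => ⟨(hg i).1, (hg i).2.1, (hg i).2.2⟩) S
  filter_upwards [h1] with ω hω A hA F hF hnear s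
  exact nil_of_normal hF.2.2 (hω A hA F ⟨hF.1, hF.2.1, hF.2.2⟩ hnear s)

end Pool.Agent.Results.MP_663568_nt.NearRandomNilmanifolds
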