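import Pool.Agent.U237.LI.UB
import Pool.Agent.U237.LI.F2
import Pool.Agent.U237.NF.Asm
import Pool.Agent.U358.LI.EQ
import Pool.Agent.U427.LI.TK
import Pool.Agent.TH823.MRS.Fun
import Pool.Agent.R512.G.Expo

/-!
# Local exponential sums of the Liouville function with frequencies in small sets (natural averages)
-/

set_option autoImplicit false
set_option maxHeartbeats 1000000

open Filter Topology Finset MeasureTheory

namespace Pool.Agent.Results.MP_663568_nt.ShortArcs

/-- `f` is completely multiplicative with values `±1` on the positive integers (and `f 0 = 0`) -/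
structure CompletelyMultiplicative (f : ℕ → ℤ) : Prop where
  zero : f 0 = 0
  mul : ∀ m n : ℕ, f (m * n) = f m * f n
  val : ∀ n : ℕ, 0 < n → f n = 1 ∨ f n = -1

open scoped Classical in
/-- `f` pretends to be no real Dirichlet character: for each `χ` with `χ ^ 2 = 1` (of any modulus) the sum of the `1 / p`
over the primes `p` with `f p ≠ χ p` diverges -/
def NonPretentious (f : ℕ → ℤ) : Prop :=
  ∀ Q : ℕ, 0 < Q → ∀ χ : DirichletCharacter ℂ Q, χ ^ 2 = 1 →
    ¬ Summable (fun p : ℕ => if p.Prime ∧ (f p : ℂ) ≠ χ (p : ZMod Q) then 1 / (p : ℝ) else 0)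

/-- the Liouville function, the Möbius function, and all completely multiplicative functions with values `±1`
which pretend to be no real Dirichlet character -/
def Weight (h : ℕ → ℤ) : Prop :=
  (h = fun n => (-1) ^ ArithmeticFunction.cardFactors n) ∨ (h = fun n => ArithmeticFunction.moebius n) ∨
    (CompletelyMultiplicative h ∧ NonPretentious h)

/-- `s` is an asymptotic bound, in natural averages, for the mean over `n` of
`(1 / H) |∑_{i < H} h(n + i) exp(2 π i α_n)|`, where the frequencies `α_n ∈ C` may depend on `n`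
(first `N → ∞`, then `H → ∞`) -/
def Bound (h : ℕ → ℤ) (C : Set UnitAddCircle) (s : ℝ) : Prop :=
  ∀ ε : ℝ, 0 < ε → ∃ H₀ : ℕ, ∀ H : ℕ, H₀ ≤ H → ∃ N₀ : ℕ, ∀ N : ℕ, N₀ ≤ N →
    ∀ α : ℕ → ℝ, (∀ n, ((α n : ℝ) : UnitAddCircle) ∈ C) →
      ∑ n ∈ range N, ‖∑ i ∈ range H, (h (n + i) : ℂ) * Complex.exp (2 * Real.pi * Complex.I * (i * α n))‖ ≤
        (s + ε) * H * N

open Pool.Agent.U237.NF.Lite (ExpoSmall)
open Pool.Agent.W24.Katai (Mul1)
open Pool.Agent.U237.LI (UpperBd WS)

theorem weight_good {h : ℕ → ℤ} (hw : Weight h) : Mul1 (fun n => (h n : ℂ)) ∧ ExpoSmall (fun n => (h n : ℂ)) := by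
  rcases hw with rfl | rfl | ⟨hc, hn⟩
  · refine ⟨⟨fun n => ?_, fun m n hmn => ?_⟩, ?_⟩
    · rw [Complex.norm_intCast, Int.cast_pow, abs_pow]
      simp
    · by_cases hm : m = 0
      · subst hm
        rw [Nat.coprime_zero_left] at hmn
        subst hmn
        simp
      by_cases hn0 : n = 0
      · subst hn0
        rw [Nat.coprime_zero_right] at hmn
        subst hmn
        simp
      beta_reduce
      rw [ArithmeticFunction.cardFactors_mul hm hn0, pow_add]
      push_cast
      rfl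
    · exact Pool.Agent.TH823.MRS.expo_lam
  · refine ⟨⟨fun n => ?_, fun m n hmn => ?_⟩, ?_⟩
    · rw [Complex.norm_intCast]
      exact_mod_cast ArithmeticFunction.abs_moebius_le_one
    · beta_reduce
      rw [ArithmeticFunction.isMultiplicative_moebius.map_mul_of_coprime hmn]
      push_cast
      rfl
    · exact Pool.Agent.TH823.MRS.expo_mob
  · have h1 : h 1 = 1 := by
      have e := hc.mul 1 1
      rcases hc.val 1 one_pos with h2 | h2
      · exact h2
      · rw [mul_one, h2] at e
        norm_num at e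
    have hcm : Pool.Agent.Y872.L.CM h := ⟨hc.zero, h1, hc.mul, hc.val⟩
    refine ⟨⟨fun n => ?_, fun m n _ => ?_⟩, ?_⟩
    · rw [Complex.norm_intCast]
      rcases Nat.eq_zero_or_pos n with h0 | h0
      · rw [h0, hc.zero]; simp
      · rcases hc.val n h0 with h2 | h2 <;> rw [h2] <;> simp
    · beta_reduce
      rw [hc.mul]
      push_cast
      rfl
    · exact Pool.Agent.R512.G.expoS hcm hn

theorem sum_eq (h : ℕ → ℤ) (H n : ℕ) (x : ℝ) :
    ∑ i ∈ range H, (h (n + i) : ℂ) * Complex.exp (2 * Real.pi * Complex.I * (i * x)) = WS (fun n => (h n : ℂ)) H n x := by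
  unfold Pool.Agent.U237.LI.WS Pool.Agent.H807R2.Dav.ee
  refine Finset.sum_congr rfl (fun i _ => ?_)
  push_cast
  rfl

theorem bound_iff (h : ℕ → ℤ) (C : Set UnitAddCircle) (s : ℝ) : Bound h C s ↔ UpperBd (fun n => (h n : ℂ)) C s := by
  unfold Bound Pool.Agent.U237.LI.UpperBd
  simp only [sum_eq]

/-- small neighbourhoods of thin sets -/
theorem thick {h : ℕ → ℂ} (hm : Mul1 h) (hE : ExpoSmall h) {η : ℝ → ℝ} (hη : Tendsto η atTop (𝓝 0)) {ε : ℝ} (hε : 0 < ε) :
    ∃ τ : ℝ, 0 < τ ∧ ∀ A : Set UnitAddCircle, Pool.Agent.U237.LI.Core2.ThinT η τ A → UpperBd h A ε := by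
  obtain ⟨τ, hτ, H0, hH0⟩ := Pool.Agent.U237.LI.F2.t_FT
    (Pool.Agent.U237.LI.Core2.t_CoreT Pool.Agent.U147.NF.K.t_K Pool.Agent.U451.NF.Z.t_Z Pool.Agent.U608.NF.GR.t_G
    Pool.Agent.U608.NF.GR.t_R Pool.Agent.U237.NF.Asm.s_L Pool.Agent.U237.NF.M.t_M Pool.Agent.U237.NF.C.t_C) h hm hE η hη ε hε
  refine ⟨τ, hτ, fun A hA δ hδ => ⟨H0, fun H hH => ?_⟩⟩
  obtain ⟨N0, hN0⟩ := hH0 H hH
  refine ⟨N0, fun N hN a ha => ?_⟩
  have h1 := hN0 N hN A hA a ha
  have h2 : ∑ n ∈ range N, ‖WS h H n (a n)‖ ≤ ε * H * N := h1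
  refine h2.trans ?_
  gcongr
  linarith

/-- **Local exponential sums with frequencies in small sets.** Let `h` be the Liouville function, the Möbius function, or
any completely multiplicative function with values `±1` which pretends to be no real Dirichlet character. In natural
averages at all scales, with the supremum over the frequencies inside the mean: (1) a bound `s` for the frequencies in one
set `C`, `J` the interior of the closure of `C`, gives the bound `s / |J|` for all frequencies (so `o(|I|)` for arbitrarily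
short arcs `I` would be the full conjecture); (2) for each compact null set `K` the bound tends to `0` with the
neighbourhood of `K`; (3) the bound tends to `0` with the length of the arc, uniformly in its position. -/
theorem result (h : ℕ → ℤ) (hw : Weight h) :
    (∀ (C : Set UnitAddCircle) (s : ℝ), 0 ≤ s → 0 < volume (interior (closure C)) → Bound h C s →
      Bound h Set.univ (s / volume.real (interior (closure C)))) ∧
    (∀ K : Set UnitAddCircle, IsCompact K → volume K = 0 → ∀ ε : ℝ, 0 < ε →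
      ∃ τ : ℝ, 0 < τ ∧ Bound h (Metric.cthickening τ K) ε) ∧
    (∀ ε : ℝ, 0 < ε → ∃ τ : ℝ, 0 < τ ∧ ∀ c : UnitAddCircle, Bound h (Metric.closedBall c τ) ε) := by
  have hg := weight_good hw
  have hEQ := Pool.Agent.U358.LI.t_EQ Pool.Agent.U237.NF.Asm.s_E Pool.Agent.U237.NF.C.t_C
  refine ⟨fun C s hs hv hU => ?_, fun K hK h0 ε hε => ?_, fun ε hε => ?_⟩
  · rw [bound_iff] at hU ⊢
    exact Pool.Agent.U237.LI.arcs_int Pool.Agent.U237.NF.M.t_M hEQ Pool.Agent.U427.LI.t_TK Pool.Agent.U237.NF.C.t_C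
      hg.1 hg.2 (closure C) s hs (hU.closure hg.1.1) hv
  · obtain ⟨η, hη, hthin⟩ := Pool.Agent.U951.NF.t_THN K hK h0
    obtain ⟨τ, hτ, hA⟩ := thick hg.1 hg.2 hη hε
    refine ⟨τ, hτ, ?_⟩
    rw [bound_iff]
    refine hA _ ⟨K, hthin, fun z hz => ?_⟩
    rw [hK.cthickening_eq_biUnion_closedBall hτ.le] at hz
    simp only [Set.mem_iUnion, Metric.mem_closedBall, exists_prop] at hz
    obtain ⟨x, hx, hzx⟩ := hz
    exact ⟨x, hx, by rwa [← dist_eq_norm]⟩
  · have hη : Tendsto (fun x : ℝ => 1 / x) atTop (𝓝 0) := by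
      simpa using tendsto_inv_atTop_zero
    obtain ⟨τ, hτ, hA⟩ := thick hg.1 hg.2 hη hε
    refine ⟨τ, hτ, fun c => ?_⟩
    rw [bound_iff]
    refine hA _ ⟨{c}, fun x hx => ⟨{c}, ?_, fun z hz => ⟨c, Finset.mem_singleton_self c, ?_⟩⟩, fun z hz => ⟨c, rfl, ?_⟩⟩
    · rw [Finset.card_singleton]
      have : x ≠ 0 := by linarith
      field_simp
      norm_num
    · rw [Set.mem_singleton_iff] at hz
      rw [hz, sub_self, norm_zero]
      positivity
    · rw [Metric.mem_closedBall, dist_eq_norm] at hz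
      exact hz

end Pool.Agent.Results.MP_663568_nt.ShortArcs
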