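import Pool.Agent.U307.NP.B5
import Pool.Agent.Results.MP_663568_nt.SmallFrequencySets

/-!
# Two-step nilmanifolds, natural averages at all scales

`G = ℝ^d × ℝ^c` with the product `(x, t) (y, s) = (x + y, t + s + β(x, y))`, `β` bilinear with integer coefficients,
`Γ = ℤ^d × ℤ^c`: in Mal'cev coordinates every connected simply connected two-step nilpotent Lie group with a lattice.
`E` is a compact set in the horizontal torus `ℝ^d/ℤ^d` such that `k · E` is a null set of irrational numbers for every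
integer vector `k ≠ 0`. For every continuous `F` on `G/Γ` the supremum over ALL `g ∈ G` with horizontal part in `E` and
ALL points `y` of the nilmanifold of `|∑_{h ≤ H} F(g^(n+h) y) μ(n+h)|` is `o(H)` on average over `n ≤ N`, WITHOUT
logarithmic weights, uniformly over all `N ≥ H`.

Idea of the proof: Kátai's criterion in one dyadic block of primes at the single scale `N`; for nilsequences `ψ`, `ψ'`
with horizontal parts `α`, `α'` a correlation of `ψ(p m)` and `ψ'(q m)` gives a relation `p (ζ · α) ≈ q (ζ' · α')`,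
`ζ ≠ 0`, with bounded integer vectors whose size does not depend on `p` and `q`, after few primes `p` (for which
`p α` is near a proper subtorus) are removed; many relations at one point give a common root `β`,
`ζ · α_q ≈ q β`; but for every `β` only few `q` in a dyadic block have `q β` near a compact null set of irrational
numbers.
-/

set_option autoImplicit false

open Finset MeasureTheory

namespace Pool.Agent.Results.MP_663568_nt.TwoStepNaturalAverages

/-- The product of the group `G = ℝ^d × ℝ^c`: `(x, t) (y, s) = (x + y, t + s + β(x, y))` with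
`β(x, y)_l = ∑_{i,j} x_i β_l(i, j) y_j`. -/
noncomputable def mul {d c : ℕ} (β : Fin c → Matrix (Fin d) (Fin d) ℤ) (g h : (Fin d → ℝ) × (Fin c → ℝ)) :
    (Fin d → ℝ) × (Fin c → ℝ) :=
  (g.1 + h.1, g.2 + h.2 + fun l => ∑ i, ∑ j, g.1 i * (β l i j : ℝ) * h.1 j)

/-- The commutator subgroup of `G` is `{0} × ℝ^c`: no nonzero integral combination of the matrices `β_l` is symmetric
(for `c = 0`, when `G = ℝ^d`, this is an empty condition). -/
def CommutatorsSpan {d c : ℕ} (β : Fin c → Matrix (Fin d) (Fin d) ℤ) : Prop :=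
  ∀ k : Fin c → ℤ, k ≠ 0 → (∑ l, k l • β l).transpose ≠ ∑ l, k l • β l

/-- `F` is a continuous function on `G/Γ`, `Γ = ℤ^d × ℤ^c`. -/
def IsFunctionOnNilmanifold {d c : ℕ} (β : Fin c → Matrix (Fin d) (Fin d) ℤ)
    (F : (Fin d → ℝ) × (Fin c → ℝ) → ℂ) : Prop :=
  Continuous F ∧ ∀ (g : (Fin d → ℝ) × (Fin c → ℝ)) (m : Fin d → ℤ) (j : Fin c → ℤ),
    F (mul β g (fun i => (m i : ℝ), fun l => (j l : ℝ))) = F g

/-- `E` is a compact set in the horizontal torus and for every integer vector `k ≠ 0` the numbers `k · x`, `x ∈ E`, are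
irrational modulo one and form a set of measure zero. -/
def SmallHorizontal {d : ℕ} (E : Set (Fin d → UnitAddCircle)) : Prop :=
  IsCompact E ∧ ∀ k : Fin d → ℤ, k ≠ 0 → volume ((fun x : Fin d → UnitAddCircle => ∑ i, k i • x i) '' E) = 0 ∧
    ∀ x ∈ E, ∀ t : ℝ, (t : UnitAddCircle) = ∑ i, k i • x i → Irrational t

/-- `f` is multiplicative and bounded by one. -/
def IsBoundedMultiplicative (f : ℕ → ℂ) : Prop :=
  (∀ n, ‖f n‖ ≤ 1) ∧ ∀ a b : ℕ, a.Coprime b → f (a * b) = f a * f b

/-- The supremum of `|∑_{1 ≤ h ≤ H} f(n + h) F(g^(n+h) y)|` over all `g ∈ G` with horizontal part in `E` and all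
`y ∈ G`; here `g^m y` is the `m`-th iterate at `y` of the left multiplication by `g`. -/
noncomputable def windowSup {d c : ℕ} (β : Fin c → Matrix (Fin d) (Fin d) ℤ) (F : (Fin d → ℝ) × (Fin c → ℝ) → ℂ)
    (E : Set (Fin d → UnitAddCircle)) (f : ℕ → ℂ) (n H : ℕ) : ℝ :=
  ⨆ p : {g : (Fin d → ℝ) × (Fin c → ℝ) // (fun i => (g.1 i : UnitAddCircle)) ∈ E} × ((Fin d → ℝ) × (Fin c → ℝ)),
    ‖∑ h ∈ Icc 1 H, f (n + h) * F ((mul β p.1.1)^[n + h] p.2)‖

/-- the Möbius function -/
noncomputable def mu (n : ℕ) : ℂ := ((ArithmeticFunction.moebius n : ℤ) : ℂ)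

/-- the mean value of `F` on the nilmanifold, as an integral over the unit cube -/
noncomputable def mean {d c : ℕ} (F : (Fin d → ℝ) × (Fin c → ℝ) → ℂ) : ℂ :=
  ∫ p in Set.Icc (0 : (Fin d → ℝ) × (Fin c → ℝ)) 1, F p

lemma mu_mult : IsBoundedMultiplicative mu := by
  constructor
  · intro n
    unfold mu
    rw [Complex.norm_intCast]
    have h1 := ArithmeticFunction.abs_moebius_le_one (n := n)
    exact_mod_cast h1
  · intro a b hab
    unfold mu
    rw [ArithmeticFunction.isMultiplicative_moebius.map_mul_of_coprime hab]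
    push_cast
    ring

/-- short sums of the Möbius function -/
lemma mu_short (ε : ℝ) (hε : 0 < ε) : ∃ H₀ : ℕ, ∀ N H : ℕ, H₀ ≤ H → H ≤ N →
    ∑ n ∈ Icc 1 N, ‖∑ h ∈ Icc 1 H, mu (n + h)‖ ≤ ε * H * N := by
  obtain ⟨H₀, h⟩ := Pool.Agent.Results.MP_663568_nt.SmallFrequencySets.result 0 (ContinuousMap.const _ 1) 1 0
    (by norm_num) ε hε
  refine ⟨H₀, fun N H hH hN => ?_⟩
  have h1 := (h N H hH hN Set.univ (fun n _ => ⟨{0}, by simp, fun g _ => ⟨0, by simp, by
    rw [Subsingleton.elim g 0, dist_self]; positivity⟩⟩)).2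
  refine le_trans (le_of_eq ?_) h1
  refine sum_congr rfl fun n _ => ?_
  unfold Pool.Agent.Results.MP_663568_nt.SmallFrequencySets.windowSup
  simp only [ContinuousMap.const_apply, one_mul]
  have : Nonempty (↥(Set.univ : Set (Fin 0 → UnitAddCircle)) × (Fin 0 → UnitAddCircle)) := ⟨(⟨0, trivial⟩, 0)⟩
  rw [ciSup_const]
  rfl

/-- **Two-step nilmanifolds, natural averages at all scales.** Let `F` be a continuous function on the two-step
nilmanifold `G/Γ` and `E` a small compact set of horizontal directions. For each `ε > 0` there is `H₀` such that for all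
`N ≥ H ≥ H₀`
(1) `∑_{n ≤ N} sup_{g, y} |∑_{h ≤ H} F(g^(n+h) y) μ(n+h)| ≤ ε H N`, the supremum over all `g ∈ G` with horizontal part in
`E` and all `y ∈ G`;
(2) the same holds for all multiplicative functions `f` bounded by one in place of `μ`, uniformly in `f`, if `F` is
replaced by `F` minus its mean value. -/
theorem result (d c : ℕ) (β : Fin c → Matrix (Fin d) (Fin d) ℤ) (hβ : CommutatorsSpan β)
    (F : (Fin d → ℝ) × (Fin c → ℝ) → ℂ) (hF : IsFunctionOnNilmanifold β F)
    (E : Set (Fin d → UnitAddCircle)) (hE : SmallHorizontal E) (ε : ℝ) (hε : 0 < ε) :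
    ∃ H₀ : ℕ, ∀ N H : ℕ, H₀ ≤ H → H ≤ N →
      ∑ n ∈ Icc 1 N, windowSup β F E mu n H ≤ ε * H * N ∧
      ∀ f : ℕ → ℂ, IsBoundedMultiplicative f →
        ∑ n ∈ Icc 1 N, windowSup β (fun z => F z - mean F) E f n H ≤ ε * H * N := by
  have hEv : ∀ k : Fin d → ℤ, k ≠ 0 → volume (Pool.Agent.Helper44K9.FB.lf k '' E) = 0 := fun k hk => (hE.2 k hk).1
  have hEi : Pool.Agent.Helper44K9.FN.Irr E := by
    intro k hk x hx
    obtain ⟨t, ht⟩ := QuotientAddGroup.mk_surjective (Pool.Agent.Helper44K9.FB.lf k x)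
    have h3 : Irrational t := (hE.2 k hk).2 x hx t ht
    rw [← ht]
    by_contra hne
    have h5 := addOrderOf_nsmul_eq_zero (t : UnitAddCircle)
    rw [← AddCircle.coe_nsmul, AddCircle.coe_eq_zero_iff] at h5
    obtain ⟨j, hj⟩ := h5
    apply h3
    refine ⟨(j : ℚ) / (addOrderOf (t : UnitAddCircle) : ℚ), ?_⟩
    push_cast
    rw [div_eq_iff (by exact_mod_cast hne)]
    simp only [zsmul_eq_mul, mul_one, nsmul_eq_mul] at hj
    rw [hj]
    ring
  obtain ⟨H₁, h₁⟩ := Pool.Agent.U307.NP.two_nat β hβ F hF.1 hF.2 hE.1 hEi hEv (ε / 2) (by positivity)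
  set c₀ : ℂ := Pool.Agent.Helper44K9.FN.meanF F with hc₀
  obtain ⟨H₂, h₂⟩ := mu_short (ε / (2 * (‖c₀‖ + 1))) (by positivity)
  refine ⟨H₁ + H₂, fun N H hH hN => ⟨?_, fun f hf => ?_⟩⟩
  · have h3 := h₁ mu mu_mult N H (by omega) hN
    have h4 := h₂ N H (by omega) hN
    calc ∑ n ∈ Icc 1 N, windowSup β F E mu n H ≤
        ∑ n ∈ Icc 1 N, (Pool.Agent.Helper44K9.FN.nSup β (fun z => F z - c₀) E mu n H +
          ‖c₀‖ * ‖∑ h ∈ Icc 1 H, mu (n + h)‖) := sum_le_sum fun n _ =>
            Pool.Agent.U307.NP.sup_le_mean β F hF.1 hF.2 E mu mu_mult.1 n H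
      _ ≤ ε / 2 * H * N + (‖c₀‖ + 1) * (ε / (2 * (‖c₀‖ + 1)) * H * N) := by
          rw [sum_add_distrib, ← mul_sum]
          refine add_le_add h3 ?_
          refine mul_le_mul (by linarith) h4 (sum_nonneg fun n _ => by positivity) (by positivity)
      _ = ε * H * N := by field_simp; ring
  · refine (h₁ f hf N H (by omega) hN).trans ?_
    have : 0 ≤ ε * H * N := by positivity
    linarith

end Pool.Agent.Results.MP_663568_nt.TwoStepNaturalAverages
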